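import Mathlib

namespace Pool.Agent.P.MP_527a81_lc

/-- Turing functionals: the uniform version of `Nat.RecursiveIn {X}`; the same nine clauses,
with the oracle `X` as an argument. -/
inductive TuringFunctional : ((ℕ → ℕ) → ℕ →. ℕ) → Prop
  | zero : TuringFunctional fun _ _ => Part.some 0
  | succ : TuringFunctional fun _ n => Part.some (n + 1)
  | left : TuringFunctional fun _ n => Part.some (Nat.unpair n).1
  | right : TuringFunctional fun _ n => Part.some (Nat.unpair n).2
  | oracle : TuringFunctional fun X n => Part.some (X n)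
  | pair {F H : (ℕ → ℕ) → ℕ →. ℕ} : TuringFunctional F → TuringFunctional H →
      TuringFunctional fun X n => (F X n).bind fun a => (H X n).map fun b => Nat.pair a b
  | comp {F H : (ℕ → ℕ) → ℕ →. ℕ} : TuringFunctional F → TuringFunctional H →
      TuringFunctional fun X n => (H X n).bind (F X)
  | prec {F H : (ℕ → ℕ) → ℕ →. ℕ} : TuringFunctional F → TuringFunctional H →
      TuringFunctional fun X p =>
        Nat.rec (motive := fun _ => Part ℕ) (F X (Nat.unpair p).1)
          (fun y IH => IH.bind fun i => H X (Nat.pair (Nat.unpair p).1 (Nat.pair y i)))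
          (Nat.unpair p).2
  | rfind {F : (ℕ → ℕ) → ℕ →. ℕ} : TuringFunctional F →
      TuringFunctional fun X a =>
        Nat.rfind fun n => (F X (Nat.pair a n)).map fun m => decide (m = 0)

/-- A problem: a set of instances and, for each instance, a set of solutions. -/
structure Problem where
  inst : Set (ℕ → ℕ)
  sol : (ℕ → ℕ) → Set (ℕ → ℕ)

/-- The join of two oracles. -/
def join (X Y : ℕ → ℕ) (n : ℕ) : ℕ := if n % 2 = 0 then X (n / 2) else Y (n / 2)

/-- Weihrauch reducibility. -/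
def WeihrauchLE (P Q : Problem) : Prop :=
  ∃ Φ Ψ : (ℕ → ℕ) → ℕ →. ℕ, TuringFunctional Φ ∧ TuringFunctional Ψ ∧
    ∀ X ∈ P.inst, ∃ X' ∈ Q.inst, (∀ n, X' n ∈ Φ X n) ∧
      ∀ Y ∈ Q.sol X', ∃ Z ∈ P.sol X, ∀ n, Z n ∈ Ψ (join X Y) n

/-- The colour that `X` gives to the two-element set with elements `p.1 < p.2`; the map
sending such `p` to `Nat.pair p.1 (p.2 - p.1 - 1)` is a bijection onto the naturals. -/
def colour (X : ℕ → ℕ) (p : ℕ × ℕ) : ℕ := X (Nat.pair p.1 (p.2 - p.1 - 1))

/-- Rainbow Ramsey theorem for pairs and 2-bounded colourings. -/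
def RRT22 : Problem where
  inst := {X | ∀ i, {p : ℕ × ℕ | p.1 < p.2 ∧ colour X p = i}.encard ≤ 2}
  sol X := {Z | ∃ R : Set ℕ, Z = R.indicator 1 ∧ R.Infinite ∧
    Set.InjOn (colour X) {p : ℕ × ℕ | p.1 ∈ R ∧ p.2 ∈ R ∧ p.1 < p.2}}

/-- Thin-set Hindman theorem for sums of exactly two distinct elements. -/
def thinHT2 : Problem where
  inst := Set.univ
  sol c := {Y | ∃ S : Set ℕ, Y = S.indicator 1 ∧ S.Infinite ∧
    ∃ n, ∀ x ∈ S, ∀ y ∈ S, x ≠ y → c (x + y) ≠ n}

end Pool.Agent.P.MP_527a81_lc
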