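import Pool.Agent.P.MP_527a81_lc.Defs

namespace Pool.Agent.P.MP_527a81_lc

open Filter

/-- `P` holds for all oracles agreeing with `X` on a long enough initial segment. -/
def Near (X : ℕ → ℕ) (P : (ℕ → ℕ) → Prop) : Prop :=
  ∃ u, ∀ X', (∀ k < u, X' k = X k) → P X'

lemma Near.and {X : ℕ → ℕ} {P Q : (ℕ → ℕ) → Prop} (h : Near X P) (h' : Near X Q) :
    Near X fun X' => P X' ∧ Q X' := by
  obtain ⟨u, hu⟩ := h
  obtain ⟨v, hv⟩ := h'
  exact ⟨max u v, fun X' hX => ⟨hu X' fun k hk => hX k (lt_max_of_lt_left hk),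
    hv X' fun k hk => hX k (lt_max_of_lt_right hk)⟩⟩

lemma Near.mono {X : ℕ → ℕ} {P Q : (ℕ → ℕ) → Prop} (h : Near X P) (hPQ : ∀ X', P X' → Q X') :
    Near X Q := by
  obtain ⟨u, hu⟩ := h
  exact ⟨u, fun X' hX => hPQ _ (hu X' hX)⟩

lemma Near.of_forall {X : ℕ → ℕ} {P : (ℕ → ℕ) → Prop} (h : ∀ X', P X') : Near X P :=
  ⟨0, fun X' _ => h X'⟩

lemma Near.forall_lt {X : ℕ → ℕ} {P : ℕ → (ℕ → ℕ) → Prop} (n : ℕ)
    (h : ∀ m < n, Near X (P m)) : Near X fun X' => ∀ m < n, P m X' := by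
  induction n with
  | zero => exact Near.of_forall fun _ m hm => absurd hm (Nat.not_lt_zero m)
  | succ n ih =>
    refine ((ih fun m hm => h m (Nat.lt_succ_of_lt hm)).and (h n (Nat.lt_succ_self n))).mono ?_
    rintro X' ⟨h1, h2⟩ m hm
    rcases Nat.lt_succ_iff_lt_or_eq.1 hm with hm | rfl
    · exact h1 m hm
    · exact h2

/-- The use principle. -/
theorem use_principle {F : (ℕ → ℕ) → ℕ →. ℕ} (hF : TuringFunctional F) :
    ∀ X n v, v ∈ F X n → Near X fun X' => v ∈ F X' n := by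
  induction hF with
  | zero => exact fun X n v hv => Near.of_forall fun _ => hv
  | succ => exact fun X n v hv => Near.of_forall fun _ => hv
  | left => exact fun X n v hv => Near.of_forall fun _ => hv
  | right => exact fun X n v hv => Near.of_forall fun _ => hv
  | oracle =>
    intro X n v hv
    refine ⟨n + 1, fun X' hX => ?_⟩
    simp only [Part.mem_some_iff] at hv ⊢
    rw [hX n (Nat.lt_succ_self n)]; exact hv
  | pair _ _ ihF ihH =>
    intro X n v hv
    simp only [Part.mem_bind_iff, Part.mem_map_iff] at hv ⊢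
    obtain ⟨a, ha, b, hb, rfl⟩ := hv
    exact ((ihF X n a ha).and (ihH X n b hb)).mono fun X' h => ⟨a, h.1, b, h.2, rfl⟩
  | comp _ _ ihF ihH =>
    intro X n v hv
    simp only [Part.mem_bind_iff] at hv ⊢
    obtain ⟨a, ha, hv⟩ := hv
    exact ((ihH X n a ha).and (ihF X a v hv)).mono fun X' h => ⟨a, h.1, h.2⟩
  | prec _ _ ihF ihH =>
    intro X p
    beta_reduce
    generalize (Nat.unpair p).2 = m
    generalize (Nat.unpair p).1 = a
    induction m with
    | zero => exact fun v hv => ihF X a v hv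
    | succ m ih =>
      intro v hv
      simp only [Part.mem_bind_iff] at hv ⊢
      obtain ⟨i, hi, hv⟩ := hv
      exact ((ih i hi).and (ihH X _ v hv)).mono fun X' h => ⟨i, h.1, h.2⟩
  | @rfind F _ ihF =>
    intro X a v hv
    simp only [Nat.mem_rfind, Part.mem_map_iff] at hv ⊢
    obtain ⟨⟨b, hb, hb0⟩, hlt⟩ := hv
    have h2 : Near X fun X' => ∀ m < v, ∃ c ∈ F X' (Nat.pair a m), decide (c = 0) = false := by
      refine Near.forall_lt v fun m hm => ?_
      obtain ⟨c, hc, hc0⟩ := hlt hm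
      exact (ihF X _ c hc).mono fun X' h => ⟨c, h, hc0⟩
    exact ((ihF X _ b hb).and h2).mono fun X' h => ⟨⟨b, h.1, hb0⟩, fun {m} hm => h.2 m hm⟩

/-- Every finite set extends to a thin set, for every colouring. -/
theorem exists_thin_extension (d : ℕ → ℕ) (u : ℕ) (T : Set ℕ) :
    ∃ S : Set ℕ, (∀ k < u, k ∈ S ↔ k ∈ T) ∧ S.Infinite ∧
      ∃ n, ∀ x ∈ S, ∀ y ∈ S, x ≠ y → d (x + y) ≠ n := by
  classical
  let U : Ultrafilter ℕ := hyperfilter ℕ
  have hsub : ∀ (g : ℕ → ℕ → Prop), (∀ s n n', g s n → g s n' → n = n') →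
      {n | ∀ᶠ s in (U : Filter ℕ), g s n}.Subsingleton := by
    intro g hg n hn n' hn'
    obtain ⟨s, h1, h2⟩ := (Filter.Eventually.and hn hn').exists
    exact hg s n n' h1 h2
  have h1 : ∀ a, {n | ∀ᶠ s in (U : Filter ℕ), d (a + s) = n}.Subsingleton := fun a =>
    hsub (fun s n => d (a + s) = n) fun s n n' h h' => h.symm.trans h'
  have hB1 : (d '' Set.Iio (u + u)).Finite := (Set.finite_Iio _).image d
  have hB2 : (⋃ a ∈ Set.Iio u, {n | ∀ᶠ s in (U : Filter ℕ), d (a + s) = n}).Finite :=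
    (Set.finite_Iio u).biUnion fun a _ => (h1 a).finite
  have hB3 : {n | ∀ᶠ t in (U : Filter ℕ), ∀ᶠ s in (U : Filter ℕ), d (t + s) = n}.Finite :=
    (hsub (fun t n => ∀ᶠ s in (U : Filter ℕ), d (t + s) = n)
      fun t n n' h h' => h1 t h h').finite
  obtain ⟨n, hn⟩ := ((hB1.union hB2).union hB3).exists_notMem
  simp only [Set.mem_union, not_or, Set.mem_iUnion, Set.mem_ofPred_eq, not_exists,
    Set.mem_image, Set.mem_Iio, not_and] at hn
  obtain ⟨⟨hn1, hn2⟩, hn3⟩ := hn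
  have hT : ∀ᶠ t in (U : Filter ℕ), ∀ᶠ s in (U : Filter ℕ), d (t + s) ≠ n := by
    have := Ultrafilter.eventually_not.2 hn3
    exact this.mono fun t ht => Ultrafilter.eventually_not.2 ht
  have hA : ∀ᶠ s in (U : Filter ℕ), ∀ a ∈ Finset.range u, d (a + s) ≠ n := by
    rw [Filter.eventually_all_finset]
    intro a ha
    exact Ultrafilter.eventually_not.2 (hn2 a (Finset.mem_range.1 ha))
  have hge : ∀ m, ∀ᶠ s in (U : Filter ℕ), m ≤ s := fun m =>
    (Nat.hyperfilter_le_atTop) (Filter.eventually_ge_atTop m)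
  obtain ⟨f, hf, hfr⟩ := exists_seq_of_forall_finset_exists
    (fun t => u ≤ t ∧ (∀ᶠ s in (U : Filter ℕ), d (t + s) ≠ n) ∧
      ∀ a ∈ Finset.range u, d (a + t) ≠ n)
    (fun x y => x < y ∧ d (x + y) ≠ n) (by
      intro s hs
      have h3 : ∀ᶠ y in (U : Filter ℕ), ∀ x ∈ s, x < y ∧ d (x + y) ≠ n := by
        rw [Filter.eventually_all_finset]
        intro x hx
        exact (hge (x + 1)).and (hs x hx).2.1
      obtain ⟨y, hy⟩ := (((hge u).and (hT.and hA)).and h3).exists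
      exact ⟨y, hy.1, hy.2⟩)
  have hmono : StrictMono f := fun a b hab => (hfr a b hab).1
  refine ⟨(T ∩ Set.Iio u) ∪ Set.range f, ?_, ?_, n, ?_⟩
  · intro k hk
    constructor
    · rintro (h | ⟨i, rfl⟩)
      · exact h.1
      · exact absurd hk (not_lt.2 (hf i).1)
    · exact fun h => Or.inl ⟨h, hk⟩
  · exact (Set.infinite_range_of_injective hmono.injective).mono Set.subset_union_right
  · rintro x (hx | ⟨i, rfl⟩) y (hy | ⟨j, rfl⟩) hxy
    · exact hn1 _ (Nat.add_lt_add hx.2 hy.2)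
    · exact (hf j).2.2 x (Finset.mem_range.2 hx.2)
    · rw [add_comm]; exact (hf i).2.2 y (Finset.mem_range.2 hy.2)
    · rcases lt_trichotomy i j with h | h | h
      · exact (hfr i j h).2
      · exact absurd (congrArg f h) hxy
      · rw [add_comm]; exact (hfr j i h).2

lemma code_injOn : Set.InjOn (fun p : ℕ × ℕ => Nat.pair p.1 (p.2 - p.1 - 1))
    {p | p.1 < p.2} := by
  rintro ⟨a, b⟩ hab ⟨c, e⟩ hce h
  simp only [Set.mem_ofPred_eq, Nat.pair_eq_pair] at hab hce h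
  ext <;> simp <;> omega

lemma mem_inst_of_fibres {X : ℕ → ℕ} (h : ∀ i, ∃ a b, ∀ k, X k = i → k = a ∨ k = b) :
    X ∈ RRT22.inst := by
  intro i
  obtain ⟨a, b, hab⟩ := h i
  have hinj : Set.InjOn (fun p : ℕ × ℕ => Nat.pair p.1 (p.2 - p.1 - 1))
      {p : ℕ × ℕ | p.1 < p.2 ∧ colour X p = i} := code_injOn.mono fun p hp => hp.1
  rw [← hinj.encard_image]
  refine le_trans (Set.encard_le_encard (t := {a, b}) ?_) ?_
  · rintro k ⟨p, hp, rfl⟩
    exact hab _ hp.2
  · exact (Set.encard_insert_le _ _).trans (by rw [Set.encard_singleton]; rfl)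

theorem not_weihrauchLE : ¬ WeihrauchLE RRT22 thinHT2 := by
  classical
  rintro ⟨Φ, Ψ, -, hΨ, h⟩
  have h0 : (id : ℕ → ℕ) ∈ RRT22.inst := mem_inst_of_fibres fun i => ⟨i, i, fun k hk => Or.inl hk⟩
  obtain ⟨d₀, -, -, hd₀⟩ := h id h0
  obtain ⟨S₀, -, hS₀⟩ := exists_thin_extension d₀ 0 ∅
  obtain ⟨Z₀, ⟨R₀, rfl, hR₀, -⟩, hZ₀⟩ := hd₀ (S₀.indicator 1) ⟨S₀, rfl, hS₀⟩
  obtain ⟨x, hx⟩ := hR₀.nonempty
  obtain ⟨z, hz, hxz⟩ := hR₀.exists_gt x
  obtain ⟨u, hu⟩ := (use_principle hΨ _ x _ (hZ₀ x)).and (use_principle hΨ _ z _ (hZ₀ z))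
  rw [Set.indicator_of_mem hx, Set.indicator_of_mem hz] at hu
  let X : ℕ → ℕ := fun k =>
    if (Nat.unpair k).1 = z ∧ u ≤ (Nat.unpair k).2 then Nat.pair x ((Nat.unpair k).2 + (z - x))
    else k
  have hX : X ∈ RRT22.inst := by
    refine mem_inst_of_fibres fun i => ⟨i, Nat.pair z ((Nat.unpair i).2 - (z - x)), ?_⟩
    intro k hk
    simp only [X] at hk
    split_ifs at hk with hc
    · right
      rw [← hk, Nat.unpair_pair, Nat.add_sub_cancel, ← hc.1, Nat.pair_unpair]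
    · exact Or.inl hk
  have hXu : ∀ k < u, X k = k := by
    intro k hk
    have := Nat.unpair_right_le k
    simp only [X]
    rw [if_neg]
    omega
  obtain ⟨d, -, -, hd⟩ := h X hX
  obtain ⟨S, hSu, hS⟩ := exists_thin_extension d u S₀
  obtain ⟨Z, ⟨R, rfl, hR, hinj⟩, hZ⟩ := hd (S.indicator 1) ⟨S, rfl, hS⟩
  have hjoin : ∀ k < u, join X (S.indicator 1) k = join id (S₀.indicator 1) k := by
    intro k hk
    have hk2 : k / 2 < u := lt_of_le_of_lt (Nat.div_le_self k 2) hk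
    simp only [join, hXu _ hk2, id, Set.indicator_apply, hSu _ hk2]
  obtain ⟨h1, h2⟩ := hu _ hjoin
  have hmem : ∀ w, (1 : ℕ → ℕ) w ∈ Ψ (join X (S.indicator 1)) w → w ∈ R := by
    intro w hw
    have := Part.mem_unique (hZ w) hw
    by_contra hwR
    rw [Set.indicator_of_notMem hwR] at this
    simp at this
  have hxR := hmem x h1
  have hzR := hmem z h2
  obtain ⟨y, hyR, hy⟩ := hR.exists_gt (z + u)
  have hcol : colour X (x, y) = colour X (z, y) := by
    simp only [colour, X, Nat.unpair_pair]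
    rw [if_neg (fun hc => by omega), if_pos ⟨trivial, by omega⟩]
    congr 1
    omega
  have := hinj (x₁ := (x, y)) (x₂ := (z, y)) ⟨hxR, hyR, by show x < y; omega⟩
    ⟨hzR, hyR, by show z < y; omega⟩ hcol
  simp only [Prod.mk.injEq] at this
  omega

end Pool.Agent.P.MP_527a81_lc
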